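import Pool.Agent.LSG.StmtsD

set_option autoImplicit false

namespace Pool.Agent.LSG.H77

open Set Topology Function

/-- evaluation at a point -/
noncomputable def evC (X : Type) [TopologicalSpace X] (x : X) : ↥(Cp X) →L[ℝ] ℝ where
  toFun f := f.1 x
  map_add' _ _ := rfl
  map_smul' _ _ := rfl
  cont := (continuous_apply x).comp continuous_subtype_val

/-- the operator given by a locally finite family of weights -/
theorem exists_op {E Y I : Type} [AddCommGroup E] [Module ℝ E] [TopologicalSpace E]
    [TopologicalSpace Y] (w : I → Y → ℝ) (ev : I → Y → E →L[ℝ] ℝ)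
    (hw : ∀ i, Continuous (w i)) (hlf : LocallyFinite fun i => support (w i))
    (hev : ∀ i e, Continuous fun y => ev i y e) :
    ∃ T : E →L[ℝ] ↥(Cp Y), ∀ e y, (T e).1 y = ∑ᶠ i, w i y * ev i y e := by
  classical
  have hfin : ∀ y, {i | w i y ≠ 0}.Finite := fun y => hlf.point_finite y
  have hfs : ∀ y e, (support fun i => w i y * ev i y e).Finite := fun y e =>
    (hfin y).subset fun i hi => by
      intro h0
      apply hi
      show w i y * ev i y e = 0
      rw [h0, zero_mul]
  have hcont : ∀ e, Continuous fun y => ∑ᶠ i, w i y * ev i y e := by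
    intro e
    refine continuous_finsum (fun i => (hw i).mul (hev i e)) (hlf.subset fun i y hy h0 => ?_)
    apply hy
    show w i y * ev i y e = 0
    rw [h0, zero_mul]
  refine ⟨{ toFun := fun e => ⟨fun y => ∑ᶠ i, w i y * ev i y e, hcont e⟩
            map_add' := ?_
            map_smul' := ?_
            cont := ?_ }, fun e y => rfl⟩
  · intro e e'
    apply Subtype.ext
    funext y
    show ∑ᶠ i, w i y * ev i y (e + e') =
      (∑ᶠ i, w i y * ev i y e) + ∑ᶠ i, w i y * ev i y e'
    rw [← finsum_add_distrib (hfs y e) (hfs y e')]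
    refine finsum_congr fun i => ?_
    rw [map_add, mul_add]
  · intro c e
    apply Subtype.ext
    funext y
    show ∑ᶠ i, w i y * ev i y (c • e) = c * ∑ᶠ i, w i y * ev i y e
    rw [mul_finsum]
    refine finsum_congr fun i => ?_
    rw [map_smul, smul_eq_mul]
    ring
  · refine Continuous.subtype_mk (continuous_pi fun y => ?_) _
    have h1 : (fun e : E => ∑ᶠ i, w i y * ev i y e) =
        fun e => ∑ i ∈ (hfin y).toFinset, w i y * ev i y e := by
      funext e
      refine finsum_eq_sum_of_support_subset _ ?_
      intro i hi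
      rw [Set.Finite.coe_toFinset]
      intro h0
      apply hi
      show w i y * ev i y e = 0
      rw [h0, zero_mul]
    show Continuous fun e : E => ∑ᶠ i, w i y * ev i y e
    rw [h1]
    exact continuous_finsetSum _ fun i _ => continuous_const.mul (ev i y).continuous

theorem slo : SloStmt := by
  classical
  intro H B _ a τ hlf1 hlf2 hsq hinj
  -- the map i
  obtain ⟨i, hi⟩ := exists_op (E := ℕ → ↥(Cp H)) (Y := H) (I := ℕ × B)
    (fun p y => a p.1 p.2 ((τ p.1 p.2).symm y))
    (fun p y => (evC H ((τ p.1 p.2).symm y)).comp (ContinuousLinearMap.proj p.1))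
    (fun p => (a p.1 p.2).continuous.comp (τ p.1 p.2).symm.continuous)
    (by
      refine hlf2.subset ?_
      intro p y hy
      exact ⟨(τ p.1 p.2).symm y, hy, (τ p.1 p.2).apply_symm_apply y⟩)
    (by
      intro p e
      exact (e p.1).2.comp (τ p.1 p.2).symm.continuous)
  -- the map p
  have hp := fun n : ℕ => exists_op (E := ↥(Cp H)) (Y := H) (I := B)
    (fun b y => a n b y) (fun b y => evC H (τ n b y))
    (fun b => (a n b).continuous) (hlf1 n)
    (by
      intro b e
      exact e.2.comp (τ n b).continuous)
  choose p hp using hp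
  refine ⟨i, ContinuousLinearMap.pi p, ?_⟩
  intro F
  funext n
  apply Subtype.ext
  funext h
  show (p n (i F)).1 h = (F n).1 h
  rw [hp]
  have hterm : ∀ b, a n b h * evC H (τ n b h) (i F) = (a n b h) ^ 2 * (F n).1 h := by
    intro b
    by_cases h0 : a n b h = 0
    · rw [h0]; ring
    · show a n b h * (i F).1 (τ n b h) = _
      rw [hi]
      have hsingle : ∑ᶠ q : ℕ × B, a q.1 q.2 ((τ q.1 q.2).symm (τ n b h)) *
          ((evC H ((τ q.1 q.2).symm (τ n b h))).comp (ContinuousLinearMap.proj q.1)) F =
          a n b ((τ n b).symm (τ n b h)) *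
          ((evC H ((τ n b).symm (τ n b h))).comp (ContinuousLinearMap.proj n)) F := by
        refine finsum_eq_single _ ((n, b) : ℕ × B) ?_
        intro q hq
        by_cases hq0 : a q.1 q.2 ((τ q.1 q.2).symm (τ n b h)) = 0
        · rw [hq0, zero_mul]
        · exfalso
          apply hq
          obtain ⟨h1, h2⟩ := hinj n b q.1 q.2 h ((τ q.1 q.2).symm (τ n b h)) h0 hq0
            ((τ q.1 q.2).apply_symm_apply _).symm
          exact Prod.ext h1.symm h2.symm
      rw [hsingle, (τ n b).symm_apply_apply]
      show a n b h * (a n b h * (F n).1 h) = _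
      ring
  rw [finsum_congr hterm, ← finsum_mul, hsq n h, one_mul]

end Pool.Agent.LSG.H77
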